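import Pool.Agent.Helper28.HM.FnTools

/-!
# HM-A2: the names `F r j`
-/

set_option autoImplicit false
set_option linter.unusedSectionVars false

namespace Pool.Agent.Helper33.HM

universe u

section A2

variable {B : Type u} [CompleteBooleanAlgebra B] {T : Set B}

private theorem a2_finite (r : List ℕ) : {r' : List ℕ | List.Forall₂ (· ≤ ·) r' r}.Finite := by
  induction r with
  | nil =>
    refine (Set.finite_singleton []).subset ?_
    intro r' hr'
    simp only [Set.mem_setOf_eq, List.forall₂_nil_right_iff] at hr'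
    exact hr'
  | cons a r ih =>
    refine (Set.Finite.image2 List.cons (Set.finite_Iic a) ih).subset ?_
    intro r' hr'
    simp only [Set.mem_setOf_eq, List.forall₂_cons_right_iff] at hr'
    obtain ⟨b, u, hb, hu, rfl⟩ := hr'
    exact Set.mem_image2_of_mem hb hu

private theorem a2_trans {l1 l2 l3 : List ℕ} (h : List.Forall₂ (· ≤ ·) l1 l2)
    (h' : List.Forall₂ (· ≤ ·) l2 l3) : List.Forall₂ (· ≤ ·) l1 l3 := by
  induction h generalizing l3 with
  | nil => exact h'
  | cons hab _ ih =>
    cases h' with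
    | cons hbc h'' => exact List.Forall₂.cons (le_trans hab hbc) (ih h'')

private theorem a2_exists_ext (hT : IsSub T) (r : List ℕ) :
    ∃ f : ℕ → ℕ → B, IsFn T f ∧ ExtF r f := by
  refine ⟨chk (fun n => if h : n < r.length then r[n] else 0), isFn_chk hT _, ?_⟩
  intro i h
  simp only [chk, dif_pos h]

/-- the maximum principle for one word -/
private theorem a2_one (hc : CCC B) (hT : IsSub T) (C : (ℕ → ℕ → B) → List Bool → B)
    (hC : ∀ f, IsFn T f → ∀ σ, C f σ ∈ T)
    (hmono : ∀ f g, IsFn T f → IsFn T g → ∀ σ, leF f g ⊓ C g σ ≤ C f σ)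
    (r : List ℕ) (σ : List Bool) :
    ∃ f, IsFn T f ∧ ExtF r f ∧ C f σ ≤ infC T C r σ := by
  classical
  set x := infC T C r σ with hx
  have hxT : x ∈ T := by
    rw [hx]
    unfold infC
    exact hT.iInf_mem fun f => hT.iInf_mem fun hf => hC f hf.1 σ
  obtain ⟨f0, hf0, hf0'⟩ := a2_exists_ext hT r
  obtain ⟨a, haT, haD, _, hdisj, hsup⟩ := exists_partition hc hT
    (fun c => ∃ f, IsFn T f ∧ ExtF r f ∧ c ⊓ C f σ ≤ x) (by
      intro b hb hb0
      by_cases h : b ⊓ x = ⊥
      · have h1 : b ≤ ⨆ f : {f : ℕ → ℕ → B // IsFn T f ∧ ExtF r f}, (C f.1 σ)ᶜ := by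
          rw [← compl_iInf]
          rw [← disjoint_iff] at h
          have h2 : b ≤ xᶜ := le_compl_iff_disjoint_right.2 h
          refine h2.trans ?_
          rw [hx]
          unfold infC
          rw [iInf_subtype]
        obtain ⟨f, hf⟩ := exists_inf_ne_bot hb0 h1
        refine ⟨b ⊓ (C f.1 σ)ᶜ, hT.inf_mem hb (hT.compl_mem _ (hC f.1 f.2.1 σ)), hf,
          inf_le_left, f.1, f.2.1, f.2.2, ?_⟩
        rw [inf_assoc, compl_inf_eq_bot, inf_bot_eq]
        exact bot_le
      · exact ⟨b ⊓ x, hT.inf_mem hb hxT, h, inf_le_left, f0, hf0, hf0',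
          inf_le_left.trans inf_le_right⟩)
    ⟨f0, hf0, hf0', by rw [bot_inf_eq]; exact bot_le⟩ hT.top_mem
  choose f hf hf' hfx using haD
  refine ⟨mixF a f, isFn_mixF hT haT hdisj hsup hf, extF_mixF hsup hf', ?_⟩
  have hm := isFn_mixF hT haT hdisj hsup hf
  calc C (mixF a f) σ = (⨆ i, a i) ⊓ C (mixF a f) σ := by rw [hsup, top_inf_eq]
    _ = ⨆ i, a i ⊓ C (mixF a f) σ := by rw [iSup_inf_eq]
    _ ≤ x := by
        refine iSup_le fun i => ?_
        have h1 : a i ≤ leF (f i) (mixF a f) := (le_leF_mixF hdisj f i).trans inf_le_right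
        have h2 : a i ⊓ C (mixF a f) σ ≤ C (f i) σ :=
          (inf_le_inf_right _ h1).trans (hmono _ _ (hf i) hm σ)
        exact (le_inf inf_le_left h2).trans (hfx i)

/-- finitely many words -/
private theorem a2_fin (hc : CCC B) (hT : IsSub T) (C : (ℕ → ℕ → B) → List Bool → B)
    (hC : ∀ f, IsFn T f → ∀ σ, C f σ ∈ T)
    (hmono : ∀ f g, IsFn T f → IsFn T g → ∀ σ, leF f g ⊓ C g σ ≤ C f σ)
    (r : List ℕ) (j : ℕ) :
    ∃ f, IsFn T f ∧ ExtF r f ∧ ∀ σ : List Bool, σ.length = j → C f σ ≤ infC T C r σ := by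
  have key : ∀ s : Finset (List Bool), ∃ f, IsFn T f ∧ ExtF r f ∧
      ∀ σ ∈ s, C f σ ≤ infC T C r σ := by
    intro s
    classical
    induction s using Finset.induction_on with
    | empty =>
      obtain ⟨f0, hf0, hf0'⟩ := a2_exists_ext (T := T) hT r
      exact ⟨f0, hf0, hf0', fun σ hσ => absurd hσ (Finset.notMem_empty σ)⟩
    | insert τ s _ ih =>
      obtain ⟨f, hf, hf', hfs⟩ := ih
      obtain ⟨g, hg, hg', hgs⟩ := a2_one hc hT C hC hmono r τ
      have hm := isFn_maxF hT hf hg
      refine ⟨maxF f g, hm, extF_maxF hf' hg', ?_⟩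
      intro σ hσ
      rcases Finset.mem_insert.1 hσ with rfl | hσ
      · have := hmono g (maxF f g) hg hm σ
        rw [leF_maxF_right, top_inf_eq] at this
        exact this.trans hgs
      · have := hmono f (maxF f g) hf hm σ
        rw [leF_maxF_left, top_inf_eq] at this
        exact this.trans (hfs σ hσ)
  obtain ⟨f, hf, hf', h⟩ := key (List.finite_length_eq Bool j).toFinset
  exact ⟨f, hf, hf', fun σ hσ => h σ (by simpa using hσ)⟩

private theorem a2_tot {ι : Type} (s : Finset ι) (g : ι → ℕ → B) (hg : ∀ i, Monotone (g i))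
    (h : ∀ i, ⨆ k, g i k = ⊤) : ⨆ k, s.inf (fun i => g i k) = ⊤ := by
  classical
  induction s using Finset.induction_on with
  | empty => simp
  | insert i s _ ih =>
    have hm : Monotone fun k => s.inf (fun i => g i k) := by
      intro k l hkl
      exact Finset.inf_mono_fun fun i _ => hg i hkl
    simp only [Finset.inf_insert]
    rw [iSup_inf_of_monotone (hg i) hm, h i, ih, top_inf_eq]

theorem exists_star (hc : CCC B) (hT : IsSub T) (C : (ℕ → ℕ → B) → List Bool → B)
    (hC : ∀ f, IsFn T f → ∀ σ, C f σ ∈ T)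
    (hmono : ∀ f g, IsFn T f → IsFn T g → ∀ σ, leF f g ⊓ C g σ ≤ C f σ) :
    ∃ F : List ℕ → ℕ → ℕ → ℕ → B, (∀ r j, IsFn T (F r j)) ∧ (∀ r j, ExtF r (F r j)) ∧
      (∀ r j σ, σ.length = j → C (F r j) σ ≤ infC T C r σ) ∧
      ∀ r r' j j', r.length = r'.length →
        (∀ (i : ℕ) (h : i < r.length) (h' : i < r'.length), r[i] ≤ r'[i]) → j ≤ j' →
        ∀ n k, F r' j' n k ≤ F r j n k := by
  classical
  choose f hf hf' hfs using fun (r : List ℕ) (j : ℕ) => a2_fin hc hT C hC hmono r j
  -- the finite index sets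
  let I : List ℕ → ℕ → Finset (List ℕ × ℕ) := fun r j =>
    (a2_finite r).toFinset ×ˢ Finset.range (j + 1)
  have hI : ∀ r j (p : List ℕ × ℕ), p ∈ I r j ↔ List.Forall₂ (· ≤ ·) p.1 r ∧ p.2 ≤ j := by
    intro r j p
    simp only [I, Finset.mem_product, Set.Finite.mem_toFinset, Set.mem_setOf_eq,
      Finset.mem_range, Nat.lt_succ_iff]
  let F : List ℕ → ℕ → ℕ → ℕ → B := fun r j n k =>
    if h : n < r.length then natN r[n] k else (I r j).inf (fun p => f p.1 p.2 n k)
  have hF1 : ∀ r j n k (h : n < r.length), F r j n k = natN r[n] k := by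
    intro r j n k h
    simp only [F, dif_pos h]
  have hF2 : ∀ r j n k, ¬ n < r.length →
      F r j n k = (I r j).inf (fun p => f p.1 p.2 n k) := by
    intro r j n k h
    simp only [F, dif_neg h]
  have hmon : ∀ r j n, Monotone (f r j n) := fun r j n =>
    monotone_nat_of_le_succ fun k => (hf r j).mono n k
  have hFn : ∀ r j, IsFn T (F r j) := by
    intro r j
    refine ⟨?_, ?_, ?_⟩
    · intro n k
      by_cases h : n < r.length
      · rw [hF1 r j n k h]
        exact hT.ite_mem hT.top_mem hT.bot_mem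
      · rw [hF2 r j n k h, Finset.inf_eq_iInf]
        exact hT.iInf_mem fun p => hT.iInf_mem fun _ => (hf p.1 p.2).mem n k
    · intro n k
      by_cases h : n < r.length
      · rw [hF1 r j n k h, hF1 r j n (k + 1) h]
        unfold natN
        split_ifs with h1 h2
        · exact le_rfl
        · omega
        · exact bot_le
        · exact le_rfl
      · rw [hF2 r j n k h, hF2 r j n (k + 1) h]
        exact Finset.inf_mono_fun fun p _ => (hf p.1 p.2).mono n k
    · intro n
      by_cases h : n < r.length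
      · rw [eq_top_iff]
        refine le_trans ?_ (le_iSup _ r[n])
        rw [hF1 r j n _ h]
        simp [natN]
      · simp only [hF2 r j n _ h]
        exact a2_tot (I r j) (fun p => f p.1 p.2 n) (fun p => hmon p.1 p.2 n)
          (fun p => (hf p.1 p.2).tot n)
  refine ⟨F, hFn, ?_, ?_, ?_⟩
  · intro r j i h
    funext k
    exact hF1 r j i k h
  · intro r j σ hσ
    have hle : leF (f r j) (F r j) = ⊤ := by
      rw [leF_eq_top_iff]
      intro n k
      by_cases h : n < r.length
      · rw [hF1 r j n k h, hf' r j n h]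
      · rw [hF2 r j n k h]
        exact Finset.inf_le (f := fun p : List ℕ × ℕ => f p.1 p.2 n k) (b := (r, j))
          ((hI r j (r, j)).2 ⟨List.forall₂_refl r, le_rfl⟩)
    have := hmono (f r j) (F r j) (hf r j) (hFn r j) σ
    rw [hle, top_inf_eq] at this
    exact this.trans (hfs r j σ hσ)
  · intro r r' j j' hlen hle hj n k
    have h2 : List.Forall₂ (· ≤ ·) r r' := by
      rw [List.forall₂_iff_get]
      exact ⟨hlen, fun i h h' => hle i h h'⟩
    by_cases h : n < r.length
    · have h' : n < r'.length := hlen ▸ h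
      rw [hF1 r j n k h, hF1 r' j' n k h']
      have := hle n h h'
      unfold natN
      split_ifs with h3 h4
      · exact le_rfl
      · omega
      · exact bot_le
      · exact le_rfl
    · have h' : ¬ n < r'.length := by rwa [← hlen]
      rw [hF2 r j n k h, hF2 r' j' n k h']
      apply Finset.inf_mono
      intro p hp
      rw [hI] at hp ⊢
      refine ⟨?_, hp.2.trans hj⟩
      exact a2_trans hp.1 h2

end A2

end Pool.Agent.Helper33.HM
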